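import Mathlib

/-!
MP_d81239_gt, Q1 (true): if `X` is monotonically normal and `Y ⊆ X` is dense then `l(X) ≤ l(Y)`.
-/

namespace Pool.Agent.Results.MP_d81239_gt.LindelofDense

open Set Topology Cardinal

universe u

/-- Every open cover of `Z` has a subcover of cardinality at most `κ`. -/
def CoversReduce (Z : Type u) [TopologicalSpace Z] (κ : Cardinal.{u}) : Prop :=
  ∀ 𝒰 : Set (Set Z), (∀ U ∈ 𝒰, IsOpen U) → ⋃₀ 𝒰 = Set.univ →
    ∃ 𝒱 ⊆ 𝒰, #𝒱 ≤ κ ∧ ⋃₀ 𝒱 = Set.univ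

/-- The Lindelöf number: the least infinite cardinal `κ` such that every open cover has a subcover
of cardinality at most `κ`. -/
noncomputable def lindelofNumber (Z : Type u) [TopologicalSpace Z] : Cardinal.{u} :=
  sInf {κ | ℵ₀ ≤ κ ∧ CoversReduce Z κ}

/-- Monotonically normal spaces. -/
def MonotonicallyNormal (X : Type u) [TopologicalSpace X] : Prop :=
  T1Space X ∧ ∃ H : X → Set X → Set X,
    (∀ x U, IsOpen U → x ∈ U → IsOpen (H x U) ∧ x ∈ H x U ∧ H x U ⊆ U) ∧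
    (∀ x U y V, IsOpen U → x ∈ U → IsOpen V → y ∈ V →
      (H x U ∩ H y V).Nonempty → x ∈ V ∨ y ∈ U)

/-- The set in the definition of the Lindelöf number is non-empty. -/
lemma lindelofNumber_mem (Z : Type u) [TopologicalSpace Z] :
    ℵ₀ ≤ lindelofNumber Z ∧ CoversReduce Z (lindelofNumber Z) := by
  have hne : {κ | ℵ₀ ≤ κ ∧ CoversReduce Z κ}.Nonempty := by
    refine ⟨max ℵ₀ #(Set Z), le_max_left _ _, fun 𝒰 _ h => ⟨𝒰, Subset.rfl, ?_, h⟩⟩
    exact (mk_set_le 𝒰).trans (le_max_right _ _)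
  exact csInf_mem hne

/-- Transfinite choice of a sequence. -/
lemma exists_seq {I : Type*} [LinearOrder I] [WellFoundedLT I] {α : Type*}
    (P : ∀ i : I, (∀ j, j < i → α) → α → Prop) (h : ∀ i g, ∃ a, P i g a) :
    ∃ f : I → α, ∀ i, P i (fun j _ => f j) (f i) := by
  classical
  choose c hc using h
  let f : I → α := (wellFounded_lt (α := I)).fix fun i g => c i g
  refine ⟨f, fun i => ?_⟩
  have : f i = c i (fun j _ => f j) := WellFounded.fix_eq _ _ _
  rw [this]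
  exact hc i _

section
variable {X : Type u} [TopologicalSpace X]

/-- The core: in a monotonically normal space the closure of a set of cardinality `≤ κ` satisfies
the covering property. -/
lemma closure_covered [T1Space X] {H : X → Set X → Set X}
    (h1 : ∀ x U, IsOpen U → x ∈ U → IsOpen (H x U) ∧ x ∈ H x U ∧ H x U ⊆ U)
    (h2 : ∀ x U y V, IsOpen U → x ∈ U → IsOpen V → y ∈ V →
      (H x U ∩ H y V).Nonempty → x ∈ V ∨ y ∈ U)
    {κ : Cardinal.{u}} (hκ : ℵ₀ ≤ κ) {E : Set X} (hE : #E ≤ κ)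
    (U : X → Set X) (hU : ∀ x, IsOpen (U x)) (hxU : ∀ x, x ∈ U x) :
    ∃ B : Set X, #B ≤ κ ∧ closure E ⊆ ⋃ b ∈ B, U b := by
  classical
  by_contra hcon
  push Not at hcon
  -- closures of the sets `H x U`
  have hcl : ∀ x V, IsOpen V → x ∈ V → closure (H x V) ⊆ V := by
    intro x V hV hx z hz
    by_contra hzV
    have hzx : z ∈ ({x}ᶜ : Set X) := by
      rintro rfl
      exact hzV hx
    have hO : IsOpen ({x}ᶜ : Set X) := isOpen_compl_singleton
    have h3 := h1 z {x}ᶜ hO hzx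
    have h4 := mem_closure_iff.1 hz _ h3.1 h3.2.1
    rcases h2 z {x}ᶜ x V hO hzx hV hx h4 with h5 | h5
    · exact hzV h5
    · exact h5 rfl
  -- the well-ordered index set of type `κ⁺`
  let I := (Order.succ κ).ord.ToType
  have hI : #I = Order.succ κ := mk_ord_toType _
  have hIio : ∀ i : I, #(Iio i) ≤ κ := fun i => Order.lt_succ_iff.1 (mk_Iio_toType_ord_lt i)
  -- a right separated sequence
  obtain ⟨x, hx⟩ := exists_seq (I := I) (α := X)
    (fun i g a => a ∈ closure E ∧ ∀ j (hj : j < i), a ∉ U (g j hj)) (by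
      intro i g
      let B : Set X := range fun j : Iio i => g j.1 j.2
      have hB : #B ≤ κ := mk_range_le.trans (hIio i)
      obtain ⟨a, ha, ha'⟩ := not_subset.1 (hcon B hB)
      refine ⟨a, ha, fun j hj hmem => ha' ?_⟩
      exact mem_iUnion₂.2 ⟨g j hj, ⟨⟨j, hj⟩, rfl⟩, hmem⟩)
  have hxE : ∀ i, x i ∈ closure E := fun i => (hx i).1
  have hxU' : ∀ i j, j < i → x i ∉ U (x j) := fun i j hj => (hx i).2 j hj
  let V : I → Set X := fun i => H (x i) (U (x i))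
  have hV : ∀ i, IsOpen (V i) ∧ x i ∈ V i ∧ V i ⊆ U (x i) := fun i => h1 _ _ (hU _) (hxU _)
  -- points of `E`
  have he : ∀ i, ∃ e : E, (e : X) ∈ H (x i) (V i) := by
    intro i
    have h3 := h1 (x i) (V i) (hV i).1 (hV i).2.1
    obtain ⟨e, he1, he2⟩ := mem_closure_iff.1 (hxE i) _ h3.1 h3.2.1
    exact ⟨⟨e, he2⟩, he1⟩
  choose e he using he
  -- a large fibre
  obtain ⟨e₀, hA⟩ : ∃ e₀ : E, ¬ #(e ⁻¹' {e₀}) ≤ κ := by
    by_contra hcon2
    push Not at hcon2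
    have h3 : #I ≤ κ := by
      have h4 : (Set.univ : Set I) = ⋃ e₀ : E, e ⁻¹' {e₀} := by
        ext i; simp
      have h5 : #(⋃ e₀ : E, e ⁻¹' {e₀} : Set I) ≤ #E * ⨆ e₀ : E, #(e ⁻¹' {e₀}) :=
        mk_iUnion_le _
      have h6 : (⨆ e₀ : E, #(e ⁻¹' {e₀})) ≤ κ := ciSup_le' hcon2
      calc #I = #(Set.univ : Set I) := mk_univ.symm
        _ ≤ #E * ⨆ e₀ : E, #(e ⁻¹' {e₀}) := by rw [h4]; exact h5
        _ ≤ κ * κ := mul_le_mul' hE h6
        _ = κ := mul_eq_self hκ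
    rw [hI] at h3
    exact absurd h3 (not_le.2 (Order.lt_succ κ))
  set A : Set I := e ⁻¹' {e₀} with hAdef
  -- on `A`: `x i ∈ V j` for `i ≤ j`
  have hAV : ∀ i ∈ A, ∀ j ∈ A, i ≤ j → x i ∈ V j := by
    intro i hi j hj hij
    rcases hij.eq_or_lt with rfl | hlt
    · exact (hV i).2.1
    · have h3 : ((e₀ : X)) ∈ H (x i) (V i) ∩ H (x j) (V j) := by
        constructor
        · have := he i
          rwa [show e i = e₀ from hi] at this
        · have := he j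
          rwa [show e j = e₀ from hj] at this
      rcases h2 _ _ _ _ (hV i).1 (hV i).2.1 (hV j).1 (hV j).2.1 ⟨_, h3⟩ with h4 | h4
      · exact h4
      · exact absurd ((hV i).2.2 h4) (hxU' j i hlt)
  -- `A` is unbounded
  have hunb : ∀ i : I, ∃ j ∈ A, i < j := by
    intro i
    by_contra hcon3
    push Not at hcon3
    apply hA
    have h3 : A ⊆ insert i (Iio i) := by
      intro j hj
      rcases (hcon3 j hj).eq_or_lt with h | h
      · exact Or.inl h
      · exact Or.inr h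
    calc #A ≤ #(insert i (Iio i) : Set I) := mk_le_mk_of_subset h3
      _ ≤ #(Iio i) + 1 := mk_insert_le
      _ ≤ κ + κ := add_le_add (hIio i) ((one_le_aleph0).trans hκ)
      _ = κ := add_eq_self hκ
  -- successors in `A`
  have hsucc : ∀ i : I, ∃ j ∈ A, i < j ∧ ∀ k ∈ A, i < k → j ≤ k := by
    intro i
    have hne : {j | j ∈ A ∧ i < j}.Nonempty := by
      obtain ⟨j, hj, hij⟩ := hunb i
      exact ⟨j, hj, hij⟩
    refine ⟨(wellFounded_lt (α := I)).min _ hne, ?_⟩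
    have h3 := (wellFounded_lt (α := I)).min_mem _ hne
    refine ⟨h3.1, h3.2, fun k hk hik => not_lt.1 ?_⟩
    have hmem : k ∈ {j | j ∈ A ∧ i < j} := And.intro hk hik
    exact WellFounded.not_lt_min (wellFounded_lt (α := I)) _ hmem
  choose s hsA hs1 hs2 using hsucc
  -- the disjoint open sets
  let W : I → Set X := fun i => U (x (s i)) \ closure (x '' {j | j ∈ A ∧ j ≤ i})
  have hWo : ∀ i, IsOpen (W i) := fun i => (hU _).sdiff isClosed_closure
  have hW : ∀ i ∈ A, x (s i) ∈ W i := by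
    intro i hi
    refine ⟨hxU _, fun hmem => ?_⟩
    have h3 : closure (x '' {j | j ∈ A ∧ j ≤ i}) ⊆ closure (V i) := by
      apply closure_mono
      rintro _ ⟨j, ⟨hj, hji⟩, rfl⟩
      exact hAV j hj i hi hji
    exact hxU' (s i) i (hs1 i) (hcl _ _ (hU _) (hxU _) (h3 hmem))
  have hpt : ∀ i : A, ∃ e : E, (e : X) ∈ H (x (s i)) (W i) := by
    intro i
    have h3 := h1 (x (s i)) (W i) (hWo i) (hW i i.2)
    obtain ⟨e, he1, he2⟩ := mem_closure_iff.1 (hxE (s i)) _ h3.1 h3.2.1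
    exact ⟨⟨e, he2⟩, he1⟩
  choose p hp using hpt
  apply hA
  refine le_trans ?_ hE
  refine mk_le_of_injective (f := p) ?_
  -- injectivity
  have key : ∀ i j : A, (i : I) < j → p i ≠ p j := by
    intro i j hij heq
    have hne : (H (x (s i)) (W i) ∩ H (x (s j)) (W j)).Nonempty := by
      refine ⟨p i, hp i, ?_⟩
      rw [heq]; exact hp j
    have hsij : s i ≤ j := hs2 i j j.2 hij
    rcases h2 _ _ _ _ (hWo i) (hW i i.2) (hWo j) (hW j j.2) hne with h4 | h4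
    · exact h4.2 (subset_closure ⟨s i, ⟨hsA i, hsij⟩, rfl⟩)
    · exact hxU' (s j) (s i) (lt_of_le_of_lt hsij (hs1 j)) h4.1
  intro i j hij
  rcases lt_trichotomy (i : I) j with h | h | h
  · exact absurd hij (key i j h)
  · exact Subtype.ext h
  · exact absurd hij.symm (key j i h)

/-- Q1 of MP_d81239_gt: `l(X) ≤ l(Y)` for every dense subspace `Y` of a monotonically normal
space `X`. -/
theorem result (X : Type u) [TopologicalSpace X] (hX : MonotonicallyNormal X) (Y : Set X)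
    (hY : Dense Y) : lindelofNumber X ≤ lindelofNumber Y := by
  classical
  obtain ⟨hT1, H, h1, h2⟩ := hX
  obtain ⟨hκ, hcov⟩ := lindelofNumber_mem Y
  set κ := lindelofNumber Y with hκdef
  refine csInf_le' ⟨hκ, fun 𝒰 h𝒰 hun => ?_⟩
  -- choose members of the cover
  have hch : ∀ x : X, ∃ U ∈ 𝒰, x ∈ U := fun x => by
    have : x ∈ ⋃₀ 𝒰 := hun ▸ mem_univ x
    simpa using this
  choose U hU𝒰 hxU using hch
  have hU : ∀ x, IsOpen (U x) := fun x => h𝒰 _ (hU𝒰 x)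
  -- cover `Y`
  let 𝒴 : Set (Set Y) := range fun x : X => (Subtype.val ⁻¹' H x (U x) : Set Y)
  obtain ⟨𝒱, h𝒱, h𝒱c, h𝒱u⟩ := hcov 𝒴 (by
    rintro _ ⟨x, rfl⟩
    exact (h1 x (U x) (hU x) (hxU x)).1.preimage continuous_subtype_val) (by
    rw [sUnion_eq_univ_iff]
    intro y
    exact ⟨_, ⟨(y : X), rfl⟩, (h1 _ _ (hU y) (hxU y)).2.1⟩)
  have hpick : ∀ V : 𝒱, ∃ x : X, (Subtype.val ⁻¹' H x (U x) : Set Y) = V := fun V => h𝒱 V.2
  choose pick hpick using hpick
  let E : Set X := range pick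
  have hE : #E ≤ κ := mk_range_le.trans h𝒱c
  have hrest : ∀ z : X, (∀ x ∈ E, z ∉ U x) → z ∈ closure E := by
    intro z hz
    rw [mem_closure_iff]
    intro V hV hzV
    have h3 := h1 z V hV hzV
    obtain ⟨y, hyH, hyY⟩ := hY.inter_open_nonempty _ h3.1 ⟨z, h3.2.1⟩
    have hy : (⟨y, hyY⟩ : Y) ∈ ⋃₀ 𝒱 := h𝒱u ▸ mem_univ _
    obtain ⟨W, hW, hyW⟩ := hy
    have hyW' : (⟨y, hyY⟩ : Y) ∈ (Subtype.val ⁻¹' H (pick ⟨W, hW⟩) (U (pick ⟨W, hW⟩)) : Set Y) := by
      rw [hpick]; exact hyW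
    rcases h2 z V _ _ hV hzV (hU _) (hxU (pick ⟨W, hW⟩)) ⟨y, hyH, hyW'⟩ with h4 | h4
    · exact absurd h4 (hz _ ⟨_, rfl⟩)
    · exact ⟨_, h4, ⟨_, rfl⟩⟩
  obtain ⟨B, hB, hBE⟩ := closure_covered h1 h2 hκ hE U hU hxU
  refine ⟨U '' (E ∪ B), ?_, ?_, ?_⟩
  · rintro _ ⟨x, -, rfl⟩
    exact hU𝒰 x
  · calc #(U '' (E ∪ B)) ≤ #(E ∪ B : Set X) := mk_image_le
      _ ≤ #E + #B := mk_union_le _ _
      _ ≤ κ + κ := add_le_add hE hB
      _ = κ := add_eq_self hκ
  · rw [sUnion_eq_univ_iff]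
    intro z
    by_cases hz : ∀ x ∈ E, z ∉ U x
    · obtain ⟨b, hb, hzb⟩ := mem_iUnion₂.1 (hBE (hrest z hz))
      exact ⟨_, ⟨b, Or.inr hb, rfl⟩, hzb⟩
    · push Not at hz
      obtain ⟨x, hx, hzx⟩ := hz
      exact ⟨_, ⟨x, Or.inl hx, rfl⟩, hzx⟩

end

end Pool.Agent.Results.MP_d81239_gt.LindelofDense
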